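import Pool.Agent.H27.G.R_seed8.Y957.VK.Stm

/-!
Job VK-COND (helper911 for helper957): the conditioning step in Vinogradov's method.
-/

set_option autoImplicit false

namespace Pool.Agent.Y911.VK

open Finset Pool.Agent.Y957.VK

section CS

variable {α β κ : Type*} [DecidableEq α] [DecidableEq β]

/-- the number of pairs in `A` with the same value of `v` -/
def EE (v : α → β) (A : Finset α) : ℕ := ((A ×ˢ A).filter fun z => v z.1 = v z.2).card

omit [DecidableEq α] in
theorem EE_eq (v : α → β) (A : Finset α) (W : Finset β) (hW : ∀ x ∈ A, v x ∈ W) :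
    EE v A = ∑ w ∈ W, (A.filter fun x => v x = w).card ^ 2 := by
  unfold EE
  rw [Finset.card_eq_sum_card_fiberwise (f := fun z : α × α => v z.1) (t := W)]
  · refine Finset.sum_congr rfl fun w _ => ?_
    rw [sq, ← Finset.card_product]
    congr 1
    ext z
    simp only [mem_filter, mem_product]
    constructor
    · rintro ⟨⟨⟨h1, h2⟩, h3⟩, h4⟩
      exact ⟨⟨h1, h4⟩, ⟨h2, by rw [← h3, h4]⟩⟩
    · rintro ⟨⟨h1, h4⟩, ⟨h2, h5⟩⟩
      exact ⟨⟨⟨h1, h2⟩, by rw [h4, h5]⟩, h4⟩
  · intro z hz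
    simp only [coe_filter, mem_product, Set.mem_ofPred_eq] at hz
    exact hW _ hz.1.1

theorem EE_union (v : α → β) (S : Finset α) (K : Finset κ) (A : κ → Finset α) (h : S ⊆ K.biUnion A) :
    EE v S ≤ K.card * ∑ k ∈ K, EE v (A k) := by
  have e1 := EE_eq v S ((K.biUnion A).image v) fun x hx => mem_image_of_mem v (h hx)
  have e2 : ∀ k ∈ K, EE v (A k) =
      ∑ w ∈ (K.biUnion A).image v, ((A k).filter fun x => v x = w).card ^ 2 := fun k hk =>
    EE_eq v (A k) _ fun x hx => mem_image_of_mem v (mem_biUnion.2 ⟨k, hk, hx⟩)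
  rw [e1, Finset.sum_congr rfl e2, Finset.sum_comm, mul_sum]
  refine sum_le_sum fun w _ => ?_
  calc (S.filter fun x => v x = w).card ^ 2
      ≤ (∑ k ∈ K, ((A k).filter fun x => v x = w).card) ^ 2 := by
        gcongr
        refine (card_le_card ?_).trans card_biUnion_le
        intro x hx
        rw [mem_filter] at hx
        obtain ⟨k, hk, hxk⟩ := mem_biUnion.1 (h hx.1)
        exact mem_biUnion.2 ⟨k, hk, mem_filter.2 ⟨hxk, hx.2⟩⟩
    _ ≤ _ := sq_sum_le_card_mul_sum_sq

omit [DecidableEq α] in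
theorem EE_le_sq (v : α → β) (A : Finset α) : EE v A ≤ A.card ^ 2 := by
  unfold EE
  rw [sq, ← card_product]
  exact card_le_card (filter_subset _ _)

end CS

/-- the power sums -/
def vv (n r : ℕ) (x : Fin n → ℕ) : Finset.Icc 1 r → ℕ := fun j => ∑ i, x i ^ (j : ℕ)

theorem vv_eq_iff {n r : ℕ} (x y : Fin n → ℕ) :
    vv n r x = vv n r y ↔ ∀ j ∈ Finset.Icc 1 r, ∑ i, x i ^ j = ∑ i, y i ^ j := by
  rw [funext_iff]
  constructor
  · intro h j hj
    exact h ⟨j, hj⟩
  · intro h j
    exact h j.1 j.2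

theorem J_eq (s r X : ℕ) : J s r X = EE (vv s r) (Tu s X) := by
  unfold J EE
  congr 1
  ext z
  simp only [mem_filter, vv_eq_iff]

/-- the tuples with at most `r - 1` values -/
def Dg (n r X : ℕ) : Finset (Fin n → ℕ) := (Tu n X).filter fun x => (univ.image x).card ≤ r - 1

theorem Dg_card {n r X : ℕ} (hX : 1 ≤ X) : (Dg n r X).card ≤ r ^ n * X ^ (r - 1) := by
  have h1 : Dg n r X ⊆ ((univ : Finset (Fin n → Fin (r - 1))) ×ˢ Tu (r - 1) X).image
      fun z => z.2 ∘ z.1 := by
    intro x hx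
    obtain ⟨hx1, hx2⟩ := mem_filter.1 hx
    rw [Tu, Fintype.mem_piFinset] at hx1
    have hc : Fintype.card (univ.image x) ≤ Fintype.card (Fin (r - 1)) := by
      rw [Fintype.card_coe, Fintype.card_fin]; exact hx2
    obtain ⟨e⟩ := Function.Embedding.nonempty_of_card_le hc
    rw [mem_image]
    refine ⟨(fun i => e ⟨x i, mem_image_of_mem x (mem_univ i)⟩,
      Function.extend e (fun a => (a : ℕ)) fun _ => 1), ?_, ?_⟩
    · rw [mem_product]
      refine ⟨mem_univ _, ?_⟩
      rw [Tu, Fintype.mem_piFinset]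
      intro k
      by_cases hk : ∃ a, e a = k
      · obtain ⟨a, rfl⟩ := hk
        show Function.extend e (fun a => (a : ℕ)) (fun _ => 1) (e a) ∈ Icc 1 X
        rw [e.injective.extend_apply]
        obtain ⟨i, _, hi⟩ := mem_image.1 a.2
        rw [← hi]
        exact hx1 i
      · show Function.extend e (fun a => (a : ℕ)) (fun _ => 1) k ∈ Icc 1 X
        rw [Function.extend_apply' _ _ _ hk]
        exact mem_Icc.2 ⟨le_rfl, hX⟩
    · funext i
      show Function.extend e (fun a => (a : ℕ)) (fun _ => 1) (e _) = x i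
      rw [e.injective.extend_apply]
  refine (card_le_card h1).trans (card_image_le.trans ?_)
  rw [card_product, card_univ, Fintype.card_fun, Fintype.card_fin, Fintype.card_fin, Tu,
    Fintype.card_piFinset]
  simp only [Nat.card_Icc, Nat.add_sub_cancel, prod_const, card_univ, Fintype.card_fin]
  gcongr
  exact Nat.sub_le r 1

/-- the tuples whose coordinates in `T` are distinct modulo `p` -/
def At (n X p : ℕ) (T : Finset (Fin n)) : Finset (Fin n → ℕ) :=
  (Tu n X).filter fun x => ∀ i ∈ T, ∀ k ∈ T, i ≠ k → x i % p ≠ x k % p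

theorem key {n r X : ℕ} (P : Finset ℕ) (hP : ∀ p ∈ P, p.Prime) (hprod : X ^ (r * r) < ∏ p ∈ P, p)
    (x : Fin n → ℕ) (hx : x ∈ Tu n X) (hd : ¬ (univ.image x).card ≤ r - 1) :
    ∃ p ∈ P, ∃ T ∈ powersetCard r (univ : Finset (Fin n)), x ∈ At n X p T := by
  have hr : r ≤ (univ.image x).card := by omega
  obtain ⟨I, hI, hIc⟩ := exists_subset_card_eq hr
  have hs : Set.SurjOn x ((univ : Finset (Fin n)) : Set (Fin n)) (I : Set ℕ) := by
    intro a ha
    obtain ⟨i, hi, rfl⟩ := mem_image.1 (hI ha)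
    exact ⟨i, by simp, rfl⟩
  obtain ⟨T, hT, hinj, himg⟩ := exists_subset_injOn_image_eq_of_surjOn _ _ hs
  have hTc : T.card = r := by
    rw [← hIc, ← himg, card_image_of_injOn hinj]
  have hx' := hx
  rw [Tu, Fintype.mem_piFinset] at hx'
  by_contra hcon
  push Not at hcon
  have h0 : ∀ z ∈ T.offDiag, ((x z.1 : ℤ) - x z.2).natAbs ≠ 0 := by
    intro z hz
    rw [mem_offDiag] at hz
    intro h
    have : x z.1 = x z.2 := by omega
    exact hz.2.2 (hinj hz.1 hz.2.1 this)
  have hdvd : ∏ p ∈ P, p ∣ ∏ z ∈ T.offDiag, ((x z.1 : ℤ) - x z.2).natAbs := by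
    refine Finset.prod_primes_dvd _ (fun p hp => (hP p hp).prime) fun p hp => ?_
    have h1 := hcon p hp T (mem_powersetCard.2 ⟨subset_univ _, hTc⟩)
    rw [At, mem_filter, not_and] at h1
    have h2 := h1 hx
    push Not at h2
    obtain ⟨i, hi, k, hk, hik, hmod⟩ := h2
    refine dvd_trans ?_ (dvd_prod_of_mem _ (mem_offDiag.2 ⟨hi, hk, hik⟩ : (i, k) ∈ T.offDiag))
    have h3 : (p : ℤ) ∣ (x i : ℤ) - x k := by
      have : (x k : ℕ) ≡ x i [MOD p] := hmod.symm
      exact (Nat.modEq_iff_dvd.1 this)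
    exact Int.natCast_dvd.1 h3
  have hle : ∏ z ∈ T.offDiag, ((x z.1 : ℤ) - x z.2).natAbs ≤ X ^ (r * r) := by
    calc _ ≤ ∏ _z ∈ T.offDiag, X := by
          refine prod_le_prod' fun z _ => ?_
          have h1 := mem_Icc.1 (hx' z.1)
          have h2 := mem_Icc.1 (hx' z.2)
          omega
      _ = X ^ (r * r - r) := by
          rw [prod_const, offDiag_card, hTc]
      _ ≤ X ^ (r * r) := by
          rcases Nat.eq_zero_or_pos X with h0 | h0
          · rcases Nat.eq_zero_or_pos r with hr0 | hr0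
            · subst hr0; simp
            · exfalso
              have hne : T.Nonempty := by
                rw [← card_pos, hTc]; exact hr0
              obtain ⟨i, _⟩ := hne
              have := mem_Icc.1 (hx' i)
              omega
          · exact Nat.pow_le_pow_right h0 (Nat.sub_le _ _)
  have hpos : 0 < ∏ z ∈ T.offDiag, ((x z.1 : ℤ) - x z.2).natAbs :=
    prod_pos fun z hz => Nat.pos_of_ne_zero (h0 z hz)
  have := Nat.le_of_dvd hpos hdvd
  omega

theorem EE_At {s r X p : ℕ} (T : Finset (Fin (s + r))) (hT : T.card = r) :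
    EE (vv (s + r) r) (At (s + r) X p T) ≤ BB s r p X := by
  classical
  have e1 : Fin r ≃ {i : Fin (s + r) // i ∈ T} := (T.equivFinOfCardEq hT).symm
  have hc : Fintype.card {i : Fin (s + r) // ¬ i ∈ T} = s := by
    rw [Fintype.card_subtype_compl, Fintype.card_fin, Fintype.card_coe, hT]
    omega
  have e2 : Fin s ≃ {i : Fin (s + r) // ¬ i ∈ T} := (Fintype.equivFinOfCardEq hc).symm
  have hsum : ∀ f : Fin (s + r) → ℕ, ∑ i, f i = ∑ i, f (e1 i) + ∑ i, f (e2 i) := by
    intro f
    rw [← (Equiv.sumCompl (fun i : Fin (s + r) => i ∈ T)).sum_comp f, Fintype.sum_sum_type,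
      ← e1.sum_comp, ← e2.sum_comp]
    rfl
  unfold EE BB
  refine card_le_card_of_injOn (fun z => ((fun i => z.1 (e1 i), fun i => z.2 (e1 i)),
    (fun i => z.1 (e2 i), fun i => z.2 (e2 i)))) ?_ ?_
  · intro z hz
    simp only [coe_filter, mem_product, Set.mem_ofPred_eq, At, mem_filter, Tu,
      Fintype.mem_piFinset, vv_eq_iff] at hz
    obtain ⟨⟨⟨h1, h2⟩, h3, h4⟩, h5⟩ := hz
    simp only [coe_filter, mem_product, Set.mem_ofPred_eq, Tu, Fintype.mem_piFinset]
    refine ⟨⟨⟨fun i => h1 _, fun i => h3 _⟩, fun i => h1 _, fun i => h3 _⟩, ?_, ?_, ?_⟩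
    · intro i j hij
      refine h2 _ (e1 i).2 _ (e1 j).2 fun h => hij (e1.injective (Subtype.ext h))
    · intro i j hij
      refine h4 _ (e1 i).2 _ (e1 j).2 fun h => hij (e1.injective (Subtype.ext h))
    · intro j hj
      have := h5 j hj
      rw [hsum, hsum] at this
      exact this
  · intro z _ w _ hzw
    simp only [Prod.mk.injEq] at hzw
    obtain ⟨⟨h1, h2⟩, h3, h4⟩ := hzw
    have aux : ∀ f g : Fin (s + r) → ℕ, (fun i => f (e1 i)) = (fun i => g (e1 i)) →
        (fun i => f (e2 i)) = (fun i => g (e2 i)) → f = g := by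
      intro f g ha hb
      funext i
      by_cases hi : i ∈ T
      · have := congrFun ha (e1.symm ⟨i, hi⟩)
        simpa using this
      · have := congrFun hb (e2.symm ⟨i, hi⟩)
        simpa using this
    exact Prod.ext (aux _ _ h1 h3) (aux _ _ h2 h4)

theorem cond : S_COND := by
  intro s r X hr hX P hP hprod
  rw [J_eq]
  have h1 : EE (vv (s + r) r) (Tu (s + r) X) ≤ (insertNone P).card *
      ∑ k ∈ insertNone P, EE (vv (s + r) r) (k.elim (Dg (s + r) r X) fun p =>
        (powersetCard r (univ : Finset (Fin (s + r)))).biUnion (At (s + r) X p)) := by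
    refine EE_union _ _ _ _ ?_
    intro x hx
    rw [mem_biUnion]
    by_cases hd : (univ.image x).card ≤ r - 1
    · exact ⟨none, by simp, mem_filter.2 ⟨hx, hd⟩⟩
    · obtain ⟨p, hp, T, hT, hxT⟩ := key P hP hprod x hx hd
      exact ⟨some p, by simpa using hp, mem_biUnion.2 ⟨T, hT, hxT⟩⟩
  rw [card_insertNone, sum_insertNone] at h1
  refine h1.trans (Nat.mul_le_mul_left _ (Nat.add_le_add ?_ (sum_le_sum fun p _ => ?_)))
  · refine (EE_le_sq _ _).trans ?_
    exact Nat.pow_le_pow_left (Dg_card hX) 2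
  · show EE (vv (s + r) r) ((powersetCard r (univ : Finset (Fin (s + r)))).biUnion (At (s + r) X p)) ≤ _
    refine (EE_union _ _ _ _ (le_refl _)).trans ?_
    rw [card_powersetCard, card_univ, Fintype.card_fin, sq, mul_assoc]
    refine Nat.mul_le_mul_left _ ?_
    calc _ ≤ ∑ _k ∈ powersetCard r (univ : Finset (Fin (s + r))), BB s r p X :=
          sum_le_sum fun T hT => EE_At T (mem_powersetCard.1 hT).2
      _ = _ := by
          rw [sum_const, card_powersetCard, card_univ, Fintype.card_fin, smul_eq_mul]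

end Pool.Agent.Y911.VK
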